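import Mathlib

set_option autoImplicit false

/-!
# Bootstrap percolation on the Hamming torus: definitions
-/

namespace Pool.Agent.X136.HT

open MeasureTheory ProbabilityTheory

/-- Vertices of the Hamming torus `H(n,d)`. -/
abbrev Vert (n d : ℕ) : Type := Fin d → Fin n

/-- Adjacency: the two vertices differ in exactly one coordinate. -/
def Adj {n d : ℕ} (v w : Vert n d) : Prop := ∃ i, v i ≠ w i ∧ ∀ j, j ≠ i → v j = w j

/-- One step of bootstrap percolation with threshold `θ`: the vertices with at least `θ` neighbours in
`A` are added to `A`. -/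
def step {n d : ℕ} (θ : ℕ) (A : Set (Vert n d)) : Set (Vert n d) :=
  A ∪ {v | ∃ S : Finset (Vert n d), S.card = θ ∧ ∀ w ∈ S, Adj v w ∧ w ∈ A}

/-- The final configuration. -/
def final {n d : ℕ} (θ : ℕ) (A : Set (Vert n d)) : Set (Vert n d) := ⋃ m : ℕ, (step θ)^[m] A

/-- The subgraph in which the coordinates in `J` are free and the others are those of `b`. -/
def face {n d : ℕ} (J : Finset (Fin d)) (b : Vert n d) : Set (Vert n d) :=
  {v | ∀ j, j ∉ J → v j = b j}

/-- Some `i`-dimensional subgraph is open in the final configuration. -/
def HasOpen {n d : ℕ} (θ i : ℕ) (A : Set (Vert n d)) : Prop :=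
  ∃ (J : Finset (Fin d)) (b : Vert n d), J.card = i ∧ face J b ⊆ final θ A

/-- The product Bernoulli law on configurations. -/
noncomputable def bern (V : Type*) (p : unitInterval) : Measure (V → Bool) :=
  Measure.infinitePi fun _ : V => bernoulliMeasure true false p

/-- The probability that some `i`-dimensional subgraph is open in the final configuration. -/
noncomputable def prob (n d θ i : ℕ) (p : unitInterval) : ℝ :=
  (bern (Vert n d) p).real {c | HasOpen θ i {v | c v = true}}

/-- The threshold `p_c(i,d)`: the smallest `p` for which the probability is at least `1/2`. -/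
noncomputable def pc (n d θ i : ℕ) : ℝ :=
  sInf {x : ℝ | ∃ p : unitInterval, x = p ∧ 1 / 2 ≤ prob n d θ i p}

end Pool.Agent.X136.HT
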