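import Pool.Agent.X136.HT.Defs

set_option autoImplicit false

/-!
# Deterministic part
-/

namespace Pool.Agent.X136.HT

variable {n d : ℕ}

theorem subset_step (θ : ℕ) (A : Set (Vert n d)) : A ⊆ step θ A := fun _ h => Or.inl h

theorem step_mono (θ : ℕ) {A B : Set (Vert n d)} (h : A ⊆ B) : step θ A ⊆ step θ B := by
  rintro v (hv | ⟨S, h1, h2⟩)
  · exact Or.inl (h hv)
  · exact Or.inr ⟨S, h1, fun w hw => ⟨(h2 w hw).1, h (h2 w hw).2⟩⟩

theorem iter_mono (θ : ℕ) {A B : Set (Vert n d)} (h : A ⊆ B) (m : ℕ) :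
    (step θ)^[m] A ⊆ (step θ)^[m] B := by
  induction m with
  | zero => exact h
  | succ m ih =>
    rw [Function.iterate_succ_apply', Function.iterate_succ_apply']
    exact step_mono θ ih

theorem final_mono (θ : ℕ) {A B : Set (Vert n d)} (h : A ⊆ B) : final θ A ⊆ final θ B :=
  Set.iUnion_mono fun m => iter_mono θ h m

theorem subset_final (θ : ℕ) (A : Set (Vert n d)) : A ⊆ final θ A := by
  intro v hv
  exact Set.mem_iUnion.2 ⟨0, hv⟩

theorem iter_le (θ : ℕ) (A : Set (Vert n d)) : Monotone fun m => (step θ)^[m] A := by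
  refine monotone_nat_of_le_succ fun m => ?_
  rw [Function.iterate_succ_apply']
  exact subset_step θ _

/-- the final configuration is closed -/
theorem final_closed {θ : ℕ} {A : Set (Vert n d)} {v : Vert n d} {S : Finset (Vert n d)}
    (hS : S.card = θ) (h : ∀ w ∈ S, Adj v w ∧ w ∈ final θ A) : v ∈ final θ A := by
  classical
  have h1 : ∀ w : Vert n d, ∃ m : ℕ, w ∈ S → w ∈ (step θ)^[m] A := by
    intro w
    by_cases hw : w ∈ S
    · obtain ⟨m, hm⟩ := Set.mem_iUnion.1 (h w hw).2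
      exact ⟨m, fun _ => hm⟩
    · exact ⟨0, fun h => absurd h hw⟩
  choose f hf using h1
  refine Set.mem_iUnion.2 ⟨S.sup f + 1, ?_⟩
  rw [Function.iterate_succ_apply']
  refine Or.inr ⟨S, hS, fun w hw => ⟨(h w hw).1, ?_⟩⟩
  exact iter_le θ A (Finset.le_sup hw) (hf w hw)

/-- nothing happens if no vertex has `θ` infected neighbours -/
theorem final_eq {θ : ℕ} {A : Set (Vert n d)}
    (h : ∀ v (S : Finset (Vert n d)), S.card = θ → ¬ ∀ w ∈ S, Adj v w ∧ w ∈ A) :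
    final θ A = A := by
  have h1 : step θ A = A := by
    refine le_antisymm ?_ (subset_step θ A)
    rintro v (hv | ⟨S, h2, h3⟩)
    · exact hv
    · exact absurd h3 (h v S h2)
  have h2 : ∀ m : ℕ, (step θ)^[m] A = A := by
    intro m
    induction m with
    | zero => rfl
    | succ m ih => rw [Function.iterate_succ_apply', ih, h1]
  unfold final
  simp only [h2]
  exact Set.iUnion_const A

/-- three infected neighbours suffice -/
theorem closed3 {A : Set (Vert n d)} {v w1 w2 w3 : Vert n d} (h12 : w1 ≠ w2) (h13 : w1 ≠ w3)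
    (h23 : w2 ≠ w3) (a1 : Adj v w1) (a2 : Adj v w2) (a3 : Adj v w3) (i1 : w1 ∈ final 3 A)
    (i2 : w2 ∈ final 3 A) (i3 : w3 ∈ final 3 A) : v ∈ final 3 A := by
  classical
  refine final_closed (S := {w1, w2, w3}) (Finset.card_eq_three.2 ⟨w1, w2, w3, h12, h13, h23, rfl⟩) ?_
  intro w hw
  simp only [Finset.mem_insert, Finset.mem_singleton] at hw
  rcases hw with rfl | rfl | rfl
  · exact ⟨a1, i1⟩
  · exact ⟨a2, i2⟩
  · exact ⟨a3, i3⟩

/-! ### coordinates -/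

/-- four distinct coordinates of `Fin 4` -/
structure Four (j1 j2 c e : Fin 4) : Prop where
  h12 : j1 ≠ j2
  h1c : j1 ≠ c
  h1e : j1 ≠ e
  h2c : j2 ≠ c
  h2e : j2 ≠ e
  hce : c ≠ e

theorem Four.cover {j1 j2 c e : Fin 4} (h : Four j1 j2 c e) (i : Fin 4) :
    i = j1 ∨ i = j2 ∨ i = c ∨ i = e := by
  obtain ⟨h1, h2, h3, h4, h5, h6⟩ := h
  revert i j1 j2 c e
  decide

/-- the vertex with given coordinates -/
def gv (j1 j2 c : Fin 4) (x y t s : Fin n) : Vert n 4 := fun i =>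
  if i = j1 then x else if i = j2 then y else if i = c then t else s

section

variable {j1 j2 c e : Fin 4} (hF : Four j1 j2 c e)

include hF

theorem gv_1 (x y t s : Fin n) : gv j1 j2 c x y t s j1 = x := by unfold gv; rw [if_pos rfl]

theorem gv_2 (x y t s : Fin n) : gv j1 j2 c x y t s j2 = y := by
  unfold gv; rw [if_neg hF.h12.symm, if_pos rfl]

theorem gv_c (x y t s : Fin n) : gv j1 j2 c x y t s c = t := by
  unfold gv; rw [if_neg hF.h1c.symm, if_neg hF.h2c.symm, if_pos rfl]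

theorem gv_e (x y t s : Fin n) : gv j1 j2 c x y t s e = s := by
  unfold gv; rw [if_neg hF.h1e.symm, if_neg hF.h2e.symm, if_neg hF.hce.symm]

theorem gv_eta (v : Vert n 4) : gv j1 j2 c (v j1) (v j2) (v c) (v e) = v := by
  funext i
  rcases hF.cover i with rfl | rfl | rfl | rfl
  · rw [gv_1 hF]
  · rw [gv_2 hF]
  · rw [gv_c hF]
  · rw [gv_e hF]

theorem gv_inj {x y t s x' y' t' s' : Fin n}
    (h : gv j1 j2 c x y t s = gv j1 j2 c x' y' t' s') : x = x' ∧ y = y' ∧ t = t' ∧ s = s' := by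
  have h1 := congrFun h j1
  have h2 := congrFun h j2
  have h3 := congrFun h c
  have h4 := congrFun h e
  rw [gv_1 hF, gv_1 hF] at h1
  rw [gv_2 hF, gv_2 hF] at h2
  rw [gv_c hF, gv_c hF] at h3
  rw [gv_e hF, gv_e hF] at h4
  exact ⟨h1, h2, h3, h4⟩

theorem adj_1 {x x' : Fin n} (y t s : Fin n) (h : x ≠ x') :
    Adj (gv j1 j2 c x y t s) (gv j1 j2 c x' y t s) := by
  refine ⟨j1, by rwa [gv_1 hF, gv_1 hF], fun j hj => ?_⟩
  rcases hF.cover j with rfl | rfl | rfl | rfl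
  · exact absurd rfl hj
  · rw [gv_2 hF, gv_2 hF]
  · rw [gv_c hF, gv_c hF]
  · rw [gv_e hF, gv_e hF]

theorem adj_2 {y y' : Fin n} (x t s : Fin n) (h : y ≠ y') :
    Adj (gv j1 j2 c x y t s) (gv j1 j2 c x y' t s) := by
  refine ⟨j2, by rwa [gv_2 hF, gv_2 hF], fun j hj => ?_⟩
  rcases hF.cover j with rfl | rfl | rfl | rfl
  · rw [gv_1 hF, gv_1 hF]
  · exact absurd rfl hj
  · rw [gv_c hF, gv_c hF]
  · rw [gv_e hF, gv_e hF]

theorem adj_c {t t' : Fin n} (x y s : Fin n) (h : t ≠ t') :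
    Adj (gv j1 j2 c x y t s) (gv j1 j2 c x y t' s) := by
  refine ⟨c, by rwa [gv_c hF, gv_c hF], fun j hj => ?_⟩
  rcases hF.cover j with rfl | rfl | rfl | rfl
  · rw [gv_1 hF, gv_1 hF]
  · rw [gv_2 hF, gv_2 hF]
  · exact absurd rfl hj
  · rw [gv_e hF, gv_e hF]

theorem adj_e {s s' : Fin n} (x y t : Fin n) (h : s ≠ s') :
    Adj (gv j1 j2 c x y t s) (gv j1 j2 c x y t s') := by
  refine ⟨e, by rwa [gv_e hF, gv_e hF], fun j hj => ?_⟩
  rcases hF.cover j with rfl | rfl | rfl | rfl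
  · rw [gv_1 hF, gv_1 hF]
  · rw [gv_2 hF, gv_2 hF]
  · rw [gv_c hF, gv_c hF]
  · exact absurd rfl hj

variable {A : Set (Vert n 4)}

/-- a plane with an infected outside neighbour of every vertex and two infected vertices in general
position is infected -/
theorem plane_fill {t s x x' y y' : Fin n} (hx : x ≠ x') (hy : y ≠ y')
    (h1 : gv j1 j2 c x y t s ∈ final 3 A) (h2 : gv j1 j2 c x' y' t s ∈ final 3 A)
    (hout : ∀ a b, ∃ w ∈ final 3 A, Adj (gv j1 j2 c a b t s) w ∧ ¬ (w c = t ∧ w e = s)) :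
    ∀ a b, gv j1 j2 c a b t s ∈ final 3 A := by
  have hne : ∀ {a b : Fin n} {w : Vert n 4}, ¬ (w c = t ∧ w e = s) → gv j1 j2 c a b t s ≠ w := by
    rintro a b w hw rfl
    exact hw ⟨gv_c hF _ _ _ _, gv_e hF _ _ _ _⟩
  have hne1 : ∀ {a b a' b' : Fin n}, a ≠ a' → gv j1 j2 c a b t s ≠ gv j1 j2 c a' b' t s :=
    fun h h' => h (gv_inj hF h').1
  have hne2 : ∀ {a b a' b' : Fin n}, b ≠ b' → gv j1 j2 c a b t s ≠ gv j1 j2 c a' b' t s :=
    fun h h' => h (gv_inj hF h').2.1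
  -- the corner `(x, y')`
  have hz1 : gv j1 j2 c x y' t s ∈ final 3 A := by
    obtain ⟨w, hw, hadj, hout'⟩ := hout x y'
    exact closed3 (hne1 hx) (hne hout') (hne hout') (adj_2 hF _ _ _ hy.symm)
      (adj_1 hF _ _ _ hx) hadj h1 h2 hw
  have hz2 : gv j1 j2 c x' y t s ∈ final 3 A := by
    obtain ⟨w, hw, hadj, hout'⟩ := hout x' y
    exact closed3 (hne1 hx) (hne hout') (hne hout') (adj_1 hF _ _ _ hx.symm)
      (adj_2 hF _ _ _ hy) hadj h1 h2 hw
  -- rows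
  have hrow : ∀ b, gv j1 j2 c x b t s ∈ final 3 A := by
    intro b
    by_cases hb : b = y
    · rw [hb]; exact h1
    by_cases hb' : b = y'
    · rw [hb']; exact hz1
    obtain ⟨w, hw, hadj, hout'⟩ := hout x b
    exact closed3 (hne2 hy) (hne hout') (hne hout') (adj_2 hF _ _ _ hb) (adj_2 hF _ _ _ hb')
      hadj h1 hz1 hw
  have hrow' : ∀ b, gv j1 j2 c x' b t s ∈ final 3 A := by
    intro b
    by_cases hb : b = y
    · rw [hb]; exact hz2
    by_cases hb' : b = y'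
    · rw [hb']; exact h2
    obtain ⟨w, hw, hadj, hout'⟩ := hout x' b
    exact closed3 (hne2 hy) (hne hout') (hne hout') (adj_2 hF _ _ _ hb) (adj_2 hF _ _ _ hb')
      hadj hz2 h2 hw
  intro a b
  by_cases ha : a = x
  · rw [ha]; exact hrow b
  by_cases ha' : a = x'
  · rw [ha']; exact hrow' b
  obtain ⟨w, hw, hadj, hout'⟩ := hout a b
  exact closed3 (hne1 hx) (hne hout') (hne hout') (adj_1 hF _ _ _ ha) (adj_1 hF _ _ _ ha')
    hadj (hrow b) (hrow' b) hw

/-- three layers in the direction `c` -/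
theorem three_c {s t1 t2 t3 : Fin n} (h12 : t1 ≠ t2) (h13 : t1 ≠ t3) (h23 : t2 ≠ t3) {x y : Fin n}
    (h1 : gv j1 j2 c x y t1 s ∈ final 3 A) (h2 : gv j1 j2 c x y t2 s ∈ final 3 A)
    (h3 : gv j1 j2 c x y t3 s ∈ final 3 A) (t : Fin n) : gv j1 j2 c x y t s ∈ final 3 A := by
  by_cases e1 : t = t1
  · rw [e1]; exact h1
  by_cases e2 : t = t2
  · rw [e2]; exact h2
  by_cases e3 : t = t3
  · rw [e3]; exact h3
  have hne : ∀ {a b : Fin n}, a ≠ b → gv j1 j2 c x y a s ≠ gv j1 j2 c x y b s :=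
    fun h h' => h (gv_inj hF h').2.2.1
  exact closed3 (hne h12) (hne h13) (hne h23) (adj_c hF _ _ _ e1) (adj_c hF _ _ _ e2)
    (adj_c hF _ _ _ e3) h1 h2 h3

/-- three layers in the direction `e` -/
theorem three_e {t s1 s2 s3 : Fin n} (h12 : s1 ≠ s2) (h13 : s1 ≠ s3) (h23 : s2 ≠ s3) {x y : Fin n}
    (h1 : gv j1 j2 c x y t s1 ∈ final 3 A) (h2 : gv j1 j2 c x y t s2 ∈ final 3 A)
    (h3 : gv j1 j2 c x y t s3 ∈ final 3 A) (s : Fin n) : gv j1 j2 c x y t s ∈ final 3 A := by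
  by_cases e1 : s = s1
  · rw [e1]; exact h1
  by_cases e2 : s = s2
  · rw [e2]; exact h2
  by_cases e3 : s = s3
  · rw [e3]; exact h3
  have hne : ∀ {a b : Fin n}, a ≠ b → gv j1 j2 c x y t a ≠ gv j1 j2 c x y t b :=
    fun h h' => h (gv_inj hF h').2.2.2
  exact closed3 (hne h12) (hne h13) (hne h23) (adj_e hF _ _ _ e1) (adj_e hF _ _ _ e2)
    (adj_e hF _ _ _ e3) h1 h2 h3

/-- the plane `(t,s)` contains two vertices of `A` in general position -/
def Good (j1 j2 c : Fin 4) (A : Set (Vert n 4)) (t s : Fin n) : Prop :=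
  ∃ x x' y y' : Fin n, x ≠ x' ∧ y ≠ y' ∧ gv j1 j2 c x y t s ∈ A ∧ gv j1 j2 c x' y' t s ∈ A

/-- **From a plane to everything.** -/
theorem spread {t0 s0 s1 s2 : Fin n} (hs1 : s0 ≠ s1) (hs2 : s0 ≠ s2) (hs12 : s1 ≠ s2)
    (hplane : ∀ x y, gv j1 j2 c x y t0 s0 ∈ final 3 A)
    (hgood : ∀ s ∈ ({s0, s1, s2} : Set (Fin n)), ∃ t1 t2 t3 : Fin n, t1 ≠ t2 ∧ t1 ≠ t3 ∧ t2 ≠ t3 ∧
      Good j1 j2 c A t1 s ∧ Good j1 j2 c A t2 s ∧ Good j1 j2 c A t3 s) :
    ∀ v : Vert n 4, v ∈ final 3 A := by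
  have hA := subset_final 3 A
  -- the three-dimensional subgraph `s0`
  have hG0 : ∀ x y t, gv j1 j2 c x y t s0 ∈ final 3 A := by
    have hfill : ∀ t, Good j1 j2 c A t s0 → ∀ x y, gv j1 j2 c x y t s0 ∈ final 3 A := by
      intro t hg
      by_cases ht : t = t0
      · rw [ht]; exact hplane
      obtain ⟨x, x', y, y', hx, hy, h1, h2⟩ := hg
      refine plane_fill hF hx hy (hA h1) (hA h2) fun a b => ?_
      refine ⟨gv j1 j2 c a b t0 s0, hplane a b, adj_c hF _ _ _ ht, ?_⟩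
      rw [gv_c hF]
      exact fun h => ht h.1.symm
    obtain ⟨t1, t2, t3, h12, h13, h23, g1, g2, g3⟩ := hgood s0 (by simp)
    intro x y t
    exact three_c hF h12 h13 h23 (hfill t1 g1 x y) (hfill t2 g2 x y) (hfill t3 g3 x y) t
  have hGs : ∀ s ∈ ({s1, s2} : Set (Fin n)), ∀ x y t, gv j1 j2 c x y t s ∈ final 3 A := by
    intro s hs
    have hs0 : s ≠ s0 := by
      rcases hs with rfl | rfl
      · exact hs1.symm
      · exact hs2.symm
    have hfill : ∀ t, Good j1 j2 c A t s → ∀ x y, gv j1 j2 c x y t s ∈ final 3 A := by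
      intro t hg
      obtain ⟨x, x', y, y', hx, hy, h1, h2⟩ := hg
      refine plane_fill hF hx hy (hA h1) (hA h2) fun a b => ?_
      refine ⟨gv j1 j2 c a b t s0, hG0 a b t, adj_e hF _ _ _ hs0, ?_⟩
      rw [gv_e hF]
      exact fun h => hs0 h.2.symm
    obtain ⟨t1, t2, t3, h12, h13, h23, g1, g2, g3⟩ := hgood s (Set.mem_insert_of_mem _ hs)
    intro x y t
    exact three_c hF h12 h13 h23 (hfill t1 g1 x y) (hfill t2 g2 x y) (hfill t3 g3 x y) t
  intro v
  rw [← gv_eta hF v]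
  exact three_e hF hs1 hs2 hs12 (hG0 _ _ _) (hGs s1 (by simp) _ _ _) (hGs s2 (by simp) _ _ _) _

end

end Pool.Agent.X136.HT
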