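import Pool.Agent.X136.HT.Spr

set_option autoImplicit false

/-!
# The first moment bound
-/

namespace Pool.Agent.X136.HT

open MeasureTheory ProbabilityTheory

/-- the candidates for the neighbours -/
def nb {n : ℕ} (v : Vert n 4) : Finset (Vert n 4) :=
  (Finset.univ : Finset (Fin 4 × Fin n)).image fun x => Function.update v x.1 x.2

theorem mem_nb {n : ℕ} {v w : Vert n 4} (h : Adj v w) : w ∈ nb v := by
  obtain ⟨i, -, h2⟩ := h
  refine Finset.mem_image.2 ⟨(i, w i), Finset.mem_univ _, ?_⟩
  funext j
  by_cases hj : j = i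
  · subst hj; simp
  · simp only [Function.update_of_ne hj]
    exact h2 j hj

theorem card_nb {n : ℕ} (v : Vert n 4) : (nb v).card ≤ 4 * n := by
  refine Finset.card_image_le.trans ?_
  rw [Finset.card_univ, Fintype.card_prod, Fintype.card_fin, Fintype.card_fin]

theorem adj_update {n : ℕ} {v : Vert n 4} {i : Fin 4} {x : Fin n} (h : x ≠ v i) :
    Adj v (Function.update v i x) :=
  ⟨i, by simpa using h.symm, fun j hj => by rw [Function.update_of_ne hj]⟩

theorem first_moment {n : ℕ} (hn : 3 ≤ n) (p : unitInterval) :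
    prob n 4 3 2 p ≤ (n : ℝ) ^ 4 * ((4 * n) ^ 3 * (p : ℝ) ^ 3) := by
  classical
  have hsub : {c : Vert n 4 → Bool | HasOpen 3 2 {v | c v = true}} ⊆
      ⋃ v ∈ (Finset.univ : Finset (Vert n 4)), ⋃ S ∈ (nb v).powersetCard 3,
        {c | ∀ w ∈ S, c w = true} := by
    intro c hc
    obtain ⟨J, b, hJ, hface⟩ := hc
    by_contra hcon
    simp only [Set.mem_iUnion] at hcon
    push Not at hcon
    have hno : ∀ v (S : Finset (Vert n 4)), S.card = 3 →
        ¬ ∀ w ∈ S, Adj v w ∧ w ∈ {v | c v = true} := by
      intro v S hS hall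
      refine hcon v (Finset.mem_univ _) S (Finset.mem_powersetCard.2
        ⟨fun w hw => mem_nb (hall w hw).1, hS⟩) ?_
      exact fun w hw => (hall w hw).2
    have hfin := final_eq hno
    rw [hfin] at hface
    obtain ⟨j1, j2, cc, e, hF, rfl⟩ := exists_four hJ
    obtain ⟨x1, x2, h01, h02, h12⟩ := exists_three hn (b j1)
    obtain ⟨y1, -, k01, -, -⟩ := exists_three hn (b j2)
    have hmem : ∀ i ∈ ({j1, j2} : Finset (Fin 4)), ∀ x, Function.update b i x ∈
        face {j1, j2} b := by
      intro i hi x j hj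
      have : j ≠ i := by rintro rfl; exact hj hi
      rw [Function.update_of_ne this]
    have hw12 : Function.update b j1 x1 ≠ Function.update b j1 x2 := by
      intro h
      have := congrFun h j1
      simp at this
      exact h12 this
    have hw13 : Function.update b j1 x1 ≠ Function.update b j2 y1 := by
      intro h
      have := congrFun h j1
      rw [Function.update_self, Function.update_of_ne hF.h12] at this
      exact h01 this.symm
    have hw23 : Function.update b j1 x2 ≠ Function.update b j2 y1 := by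
      intro h
      have := congrFun h j1
      rw [Function.update_self, Function.update_of_ne hF.h12] at this
      exact h02 this.symm
    refine hno b {Function.update b j1 x1, Function.update b j1 x2, Function.update b j2 y1}
      (Finset.card_eq_three.2 ⟨_, _, _, hw12, hw13, hw23, rfl⟩) ?_
    intro w hw
    simp only [Finset.mem_insert, Finset.mem_singleton] at hw
    rcases hw with rfl | rfl | rfl
    · exact ⟨adj_update h01.symm, hface (hmem j1 (by simp) _)⟩
    · exact ⟨adj_update h02.symm, hface (hmem j1 (by simp) _)⟩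
    · exact ⟨adj_update k01.symm, hface (hmem j2 (by simp) _)⟩
  have hp0 : (0 : ℝ) ≤ p := p.2.1
  unfold prob
  calc (bern (Vert n 4) p).real {c | HasOpen 3 2 {v | c v = true}}
      ≤ (bern (Vert n 4) p).real (⋃ v ∈ (Finset.univ : Finset (Vert n 4)),
          ⋃ S ∈ (nb v).powersetCard 3, {c | ∀ w ∈ S, c w = true}) :=
        measureReal_mono hsub (measure_ne_top _ _)
    _ ≤ ∑ v ∈ (Finset.univ : Finset (Vert n 4)), (bern (Vert n 4) p).real
          (⋃ S ∈ (nb v).powersetCard 3, {c | ∀ w ∈ S, c w = true}) :=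
        measureReal_biUnion_finset_le _ _
    _ ≤ ∑ _v ∈ (Finset.univ : Finset (Vert n 4)), (4 * (n : ℝ)) ^ 3 * (p : ℝ) ^ 3 := by
        refine Finset.sum_le_sum fun v _ => ?_
        refine (measureReal_biUnion_finset_le _ _).trans ?_
        have h1 : ∀ S ∈ (nb v).powersetCard 3, (bern (Vert n 4) p).real
            {c | ∀ w ∈ S, c w = true} = (p : ℝ) ^ 3 := by
          intro S hS
          have hc := (Finset.mem_powersetCard.1 hS).2
          unfold Measure.real
          rw [bern_full, hc, ENNReal.toReal_pow, ENNReal.toReal_ofReal hp0]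
        rw [Finset.sum_congr rfl h1, Finset.sum_const, nsmul_eq_mul, Finset.card_powersetCard]
        have h2 : (((nb v).card.choose 3 : ℕ) : ℝ) ≤ (4 * (n : ℝ)) ^ 3 := by
          have h3 : (nb v).card.choose 3 ≤ (4 * n) ^ 3 :=
            (Nat.choose_le_choose 3 (card_nb v)).trans (Nat.choose_le_pow _ _)
          exact_mod_cast h3
        gcongr
    _ = _ := by
        rw [Finset.sum_const, Finset.card_univ, nsmul_eq_mul]
        congr 1
        rw [Fintype.card_fun, Fintype.card_fin, Fintype.card_fin]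
        push_cast
        rfl

/-! ### monotonicity -/

theorem inc_open (n d θ i : ℕ) : Inc {c : Vert n d → Bool | HasOpen θ i {v | c v = true}} := by
  rintro c c' h ⟨J, b, hJ, hf⟩
  exact ⟨J, b, hJ, hf.trans (final_mono θ fun v hv => h v hv)⟩

theorem prob_mono (n d θ i : ℕ) {p q : unitInterval} (h : p ≤ q) :
    prob n d θ i p ≤ prob n d θ i q :=
  ENNReal.toReal_mono (measure_ne_top _ _) (bern_mono h (inc_open n d θ i))

theorem prob_le_one' (n d θ i : ℕ) (p : unitInterval) : prob n d θ i p ≤ 1 := measureReal_le_one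

theorem prob_one {n d : ℕ} (θ : ℕ) {i : ℕ} (hn : 1 ≤ n) (hi : i ≤ d) : prob n d θ i 1 = 1 := by
  have h1 : {c : Vert n d → Bool | ∀ v ∈ (Finset.univ : Finset (Vert n d)), c v = true} ⊆
      {c | HasOpen θ i {v | c v = true}} := by
    intro c hc
    obtain ⟨J, -, hJ⟩ := Finset.exists_subset_card_eq
      (s := (Finset.univ : Finset (Fin d))) (n := i) (by simpa using hi)
    refine ⟨J, fun _ => ⟨0, by omega⟩, hJ, fun v _ => subset_final θ _ ?_⟩
    exact hc v (Finset.mem_univ v)
  have h2 : (bern (Vert n d) 1).real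
      {c | ∀ v ∈ (Finset.univ : Finset (Vert n d)), c v = true} = 1 := by
    unfold Measure.real
    rw [bern_full]
    simp
  refine le_antisymm (prob_le_one' n d θ i 1) ?_
  rw [← h2]
  exact measureReal_mono h1

theorem pc_le {n d θ i : ℕ} {p : unitInterval} (h : 1 / 2 ≤ prob n d θ i p) :
    pc n d θ i ≤ p := by
  refine csInf_le ⟨0, ?_⟩ ⟨p, rfl, h⟩
  rintro x ⟨q, rfl, -⟩
  exact q.2.1

theorem half_le {n d θ i : ℕ} (hn : 1 ≤ n) (hi : i ≤ d) {p : unitInterval}
    (h : pc n d θ i < p) : 1 / 2 ≤ prob n d θ i p := by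
  have hne : {x : ℝ | ∃ p : unitInterval, x = p ∧ 1 / 2 ≤ prob n d θ i p}.Nonempty :=
    ⟨1, 1, by simp, by rw [prob_one θ hn hi]; norm_num⟩
  obtain ⟨x, ⟨q, rfl, hq⟩, hlt⟩ := exists_lt_of_csInf_lt hne h
  exact hq.trans (prob_mono n d θ i (le_of_lt hlt))

theorem pc_nonneg (n d θ i : ℕ) : 0 ≤ pc n d θ i := by
  refine Real.sInf_nonneg ?_
  rintro x ⟨q, rfl, -⟩
  exact q.2.1

theorem pc_le_one {n d θ i : ℕ} (hn : 1 ≤ n) (hi : i ≤ d) : pc n d θ i ≤ 1 := by
  have := pc_le (n := n) (d := d) (θ := θ) (i := i) (p := 1)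
    (by rw [prob_one θ hn hi]; norm_num)
  simpa using this

theorem open_of_all {n : ℕ} {A : Set (Vert n 4)} (h : AllOpen A) (i : ℕ) (hi : i ≤ 4)
    (hn : 1 ≤ n) : HasOpen 3 i A := by
  obtain ⟨J, -, hJ⟩ := Finset.exists_subset_card_eq
    (s := (Finset.univ : Finset (Fin 4))) (n := i) (by simpa using hi)
  exact ⟨J, fun _ => ⟨0, by omega⟩, hJ, fun v _ => h v⟩

theorem all_of_open {n : ℕ} {A : Set (Vert n 4)} (h : HasOpen 3 4 A) : AllOpen A := by
  obtain ⟨J, b, hJ, hf⟩ := h
  have hJ' : J = Finset.univ := by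
    rw [← Finset.card_eq_iff_eq_univ, hJ, Fintype.card_fin]
  subst hJ'
  intro v
  exact hf fun j hj => absurd (Finset.mem_univ j) hj

/-- boosting with two copies -/
theorem boost {n d θ i : ℕ} {p : unitInterval} (h : 1 / 2 ≤ prob n d θ i p) :
    3 / 4 ≤ prob n d θ i (orp p p) := by
  set S : Set (Vert n d → Bool) := {c | HasOpen θ i {v | c v = true}} with hS
  have hinc : Inc S := inc_open n d θ i
  have h1 : (bern (Vert n d) (orp p p)) Sᶜ ≤ (bern (Vert n d) p) Sᶜ * (bern (Vert n d) p) Sᶜ := by
    rw [bern_or_apply, ← Measure.prod_prod]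
    refine measure_mono ?_
    rintro ⟨c, c'⟩ hz
    constructor
    · intro hc
      exact hz (hinc c _ (fun v hv => by show (c v || c' v) = true; rw [hv]; rfl) hc)
    · intro hc
      exact hz (hinc c' _ (fun v hv => by show (c v || c' v) = true; rw [hv, Bool.or_true]) hc)
  have h2 : (bern (Vert n d) (orp p p)).real Sᶜ ≤
      (bern (Vert n d) p).real Sᶜ * (bern (Vert n d) p).real Sᶜ := by
    unfold Measure.real
    rw [← ENNReal.toReal_mul]
    exact ENNReal.toReal_mono (ENNReal.mul_ne_top (measure_ne_top _ _) (measure_ne_top _ _)) h1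
  rw [probReal_compl_eq_one_sub (measSet S), probReal_compl_eq_one_sub (measSet S)] at h2
  have h3 : (bern (Vert n d) p).real S ≤ 1 := measureReal_le_one
  have h4 : 1 / 2 ≤ (bern (Vert n d) p).real S := h
  show 3 / 4 ≤ (bern (Vert n d) (orp p p)).real S
  nlinarith

/-- from planes to everything -/
theorem all_after {n : ℕ} (hn : 3 ≤ n) (q p : unitInterval) :
    prob n 4 3 2 q * (1 - 9 * err n p) ≤ prob n 4 3 4 (orp q p) := by
  set S2 : Set (Vert n 4 → Bool) := {c | HasOpen 3 2 {v | c v = true}} with hS2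
  set S4 : Set (Vert n 4 → Bool) := {c | HasOpen 3 4 {v | c v = true}} with hS4
  have hmeas : MeasurableSet {z : (Vert n 4 → Bool) × (Vert n 4 → Bool) |
      (fun v => z.1 v || z.2 v) ∈ S4} := (Set.toFinite _).measurableSet
  rcases le_or_gt (1 - 9 * err n p) 0 with h0 | h0
  · refine le_trans (mul_nonpos_of_nonneg_of_nonpos measureReal_nonneg h0) measureReal_nonneg
  have h1 : (bern (Vert n 4) q) S2 * ENNReal.ofReal (1 - 9 * err n p) ≤
      (bern (Vert n 4) (orp q p)) S4 := by
    rw [bern_or_apply, Measure.prod_apply hmeas]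
    calc (bern (Vert n 4) q) S2 * ENNReal.ofReal (1 - 9 * err n p)
        = ∫⁻ c, S2.indicator (fun _ => ENNReal.ofReal (1 - 9 * err n p)) c
            ∂(bern (Vert n 4) q) := by
          rw [lintegral_indicator_const (measSet S2), mul_comm]
      _ ≤ _ := by
          refine lintegral_mono fun c => ?_
          by_cases hc : c ∈ S2
          · rw [Set.indicator_of_mem hc]
            have h2 := sprinkle hn p (ω1 := c) hc
            have h3 := (ENNReal.ofReal_le_iff_le_toReal (measure_ne_top _ _)).2 h2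
            refine h3.trans (measure_mono ?_)
            intro ω hω
            exact open_of_all hω 4 le_rfl (by omega)
          · rw [Set.indicator_of_notMem hc]
            exact zero_le
  have h2 := ENNReal.toReal_mono (measure_ne_top _ _) h1
  rw [ENNReal.toReal_mul, ENNReal.toReal_ofReal h0.le] at h2
  exact h2

end Pool.Agent.X136.HT
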