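import Pool.Agent.X136.HT.First

set_option autoImplicit false

/-!
# Comparison of the thresholds
-/

namespace Pool.Agent.X136.HT

open MeasureTheory ProbabilityTheory Filter Topology

theorem pow_small {k : ℕ} {s : ℝ} (h0 : 0 ≤ s) (h1 : s ≤ 1) : (1 - s) ^ k * (1 + k * s) ≤ 1 := by
  have h2 : (1 : ℝ) + k * s ≤ (1 + s) ^ k := one_add_mul_le_pow (by linarith) k
  have h3 : 0 ≤ (1 - s) ^ k := pow_nonneg (by linarith) k
  calc (1 - s) ^ k * (1 + k * s) ≤ (1 - s) ^ k * (1 + s) ^ k :=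
        mul_le_mul_of_nonneg_left h2 h3
    _ = (1 - s ^ 2) ^ k := by rw [← mul_pow]; ring
    _ ≤ 1 := pow_le_one₀ (by nlinarith) (by nlinarith)

theorem err_small : ∃ N : ℕ, 3 ≤ N ∧ ∀ n : ℕ, N ≤ n → ∀ p : unitInterval,
    1 / 128 ≤ (n : ℝ) ^ 7 * (p : ℝ) ^ 3 → err n p ≤ 1 / 27 := by
  refine ⟨10 ^ 19, by norm_num, fun n hn p hp => ?_⟩
  have hnR : (10 : ℝ) ^ 19 ≤ n := by exact_mod_cast hn
  have hn0 : (0 : ℝ) < n := by linarith [show (0 : ℝ) < 10 ^ 19 by norm_num]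
  have hp0 : (0 : ℝ) ≤ p := p.2.1
  have hp1 : (p : ℝ) ≤ 1 := p.2.2
  set m := n / 2 with hm
  set T := n / 3 with hT
  have hmR : (n : ℝ) / 3 ≤ m := by
    have h1 : n ≤ 3 * m := by omega
    have h2 : (n : ℝ) ≤ 3 * m := by exact_mod_cast h1
    linarith
  have hTR : (n : ℝ) / 6 ≤ T := by
    have h1 : n ≤ 6 * T := by omega
    have h2 : (n : ℝ) ≤ 6 * T := by exact_mod_cast h1
    linarith
  set z : ℝ := ((m * m : ℕ) : ℝ) * p with hz
  have hz0 : 0 ≤ z := by positivity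
  set u : ℝ := 1 - (1 - (p : ℝ)) ^ (m * m) with hu
  have hpw : 0 ≤ (1 - (p : ℝ)) ^ (m * m) := pow_nonneg (by linarith) _
  have hpw1 : (1 - (p : ℝ)) ^ (m * m) ≤ 1 := pow_le_one₀ (by linarith) (by linarith)
  have hu0 : 0 ≤ u := by linarith
  have hu1 : u ≤ 1 := by linarith
  have huz : z ≤ u * (1 + z) := by
    have := pow_small (k := m * m) hp0 hp1
    rw [hu]
    nlinarith
  have hkey : 26 ≤ (T : ℝ) * u ^ 2 := by
    rcases le_or_gt 1 z with h | h
    · have h1 : 1 / 2 ≤ u := by nlinarith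
      have h2 : (1 / 2 : ℝ) ^ 2 ≤ u ^ 2 := pow_le_pow_left₀ (by norm_num) h1 2
      have h3 : (104 : ℝ) ≤ T := by
        have : (624 : ℝ) ≤ n := le_trans (by norm_num) hnR
        linarith
      nlinarith
    · have h1 : z / 2 ≤ u := by nlinarith
      have h2 : (z / 2) ^ 2 ≤ u ^ 2 := pow_le_pow_left₀ (by positivity) h1 2
      set A : ℝ := (n : ℝ) ^ 5 * (p : ℝ) ^ 2 with hA
      have hA0 : 0 ≤ A := by positivity
      have hA3 : (n : ℝ) / 16384 ≤ A ^ 3 := by
        have e : A ^ 3 = n * ((n : ℝ) ^ 7 * (p : ℝ) ^ 3) ^ 2 := by rw [hA]; ring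
        rw [e]
        have h3 : (1 / 128 : ℝ) ^ 2 ≤ ((n : ℝ) ^ 7 * (p : ℝ) ^ 3) ^ 2 :=
          pow_le_pow_left₀ (by norm_num) hp 2
        nlinarith
      have hAbig : (50544 : ℝ) ≤ A := by
        by_contra hlt
        push Not at hlt
        have h3 : A ^ 3 ≤ 50544 ^ 3 := pow_le_pow_left₀ hA0 hlt.le 3
        have h4 : (10 : ℝ) ^ 19 / 16384 ≤ n / 16384 := by gcongr
        norm_num at h3 h4
        linarith
      have h4 : (n : ℝ) ^ 2 / 9 * p ≤ z := by
        rw [hz]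
        have h5 : (n : ℝ) / 3 * (n / 3) ≤ m * m := by gcongr
        push_cast
        have : (n : ℝ) ^ 2 / 9 = n / 3 * (n / 3) := by ring
        rw [this]
        gcongr
      have h5 : ((n : ℝ) ^ 2 / 9 * p) ^ 2 ≤ z ^ 2 := pow_le_pow_left₀ (by positivity) h4 2
      have h6 : (n : ℝ) / 6 * (((n : ℝ) ^ 2 / 9 * p) ^ 2 / 4) ≤ T * u ^ 2 := by
        have h7 : ((n : ℝ) ^ 2 / 9 * p) ^ 2 / 4 ≤ u ^ 2 := by
          have : (z / 2) ^ 2 = z ^ 2 / 4 := by ring
          linarith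
        gcongr
      have h7 : (n : ℝ) / 6 * (((n : ℝ) ^ 2 / 9 * p) ^ 2 / 4) = A / 1944 := by
        rw [hA]; ring
      rw [h7] at h6
      linarith
  have hfin := pow_small (k := T) (s := u ^ 2) (by positivity) (pow_le_one₀ hu0 hu1)
  have herr : err n p = (1 - u ^ 2) ^ T := rfl
  rw [herr]
  have h8 : 0 ≤ (1 - u ^ 2) ^ T := pow_nonneg (by nlinarith) _
  nlinarith

theorem compare : ∃ N : ℕ, 3 ≤ N ∧ ∀ n : ℕ, N ≤ n → ∀ p : unitInterval,
    1 / 2 ≤ prob n 4 3 2 p → 1 / 2 ≤ prob n 4 3 4 (orp (orp p p) p) := by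
  obtain ⟨N, hN3, hN⟩ := err_small
  refine ⟨N, hN3, fun n hn p hp => ?_⟩
  have h1 := first_moment (by omega : 3 ≤ n) p
  have h2 : 1 / 128 ≤ (n : ℝ) ^ 7 * (p : ℝ) ^ 3 := by
    have e : (n : ℝ) ^ 4 * ((4 * n) ^ 3 * (p : ℝ) ^ 3) = 64 * ((n : ℝ) ^ 7 * (p : ℝ) ^ 3) := by ring
    rw [e] at h1
    linarith
  have h3 := hN n hn p h2
  have h4 := boost hp
  have h5 := all_after (by omega : 3 ≤ n) (orp p p) p
  have h6 : 2 / 3 ≤ 1 - 9 * err n p := by linarith
  nlinarith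

theorem pc_pos {n : ℕ} (hn : 3 ≤ n) : 0 < pc n 4 3 2 := by
  rcases (pc_nonneg n 4 3 2).eq_or_lt with h | h
  · exfalso
    have hn0 : (1 : ℝ) ≤ n := by exact_mod_cast (by omega : 1 ≤ n)
    have hn7 : (1 : ℝ) ≤ (n : ℝ) ^ 7 := one_le_pow₀ hn0
    set x : ℝ := 1 / (128 * (n : ℝ) ^ 7) with hx
    have hx0 : 0 < x := by positivity
    have hx1 : x ≤ 1 / 128 := by
      rw [hx]
      exact one_div_le_one_div_of_le (by norm_num) (by linarith)
    have h1 := half_le (n := n) (d := 4) (θ := 3) (i := 2) (by omega) (by norm_num)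
      (p := ⟨x, hx0.le, by linarith⟩) (by rw [← h]; exact hx0)
    have h2 := first_moment hn ⟨x, hx0.le, by linarith⟩
    have h3 : (n : ℝ) ^ 4 * ((4 * n) ^ 3 * x ^ 3) = x ^ 2 / 2 := by
      have : (n : ℝ) ^ 7 * x = 1 / 128 := by rw [hx]; field_simp
      calc (n : ℝ) ^ 4 * ((4 * n) ^ 3 * x ^ 3) = 64 * ((n : ℝ) ^ 7 * x) * x ^ 2 := by ring
        _ = x ^ 2 / 2 := by rw [this]; ring
    have h4 : prob n 4 3 2 ⟨x, hx0.le, by linarith⟩ ≤ x ^ 2 / 2 := by
      rw [← h3]; exact h2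
    nlinarith
  · exact h

theorem pc_mono {n : ℕ} (hn : 1 ≤ n) : pc n 4 3 2 ≤ pc n 4 3 4 := by
  refine csInf_le_csInf ⟨0, ?_⟩ ⟨1, 1, by simp, by rw [prob_one 3 hn (by norm_num)]; norm_num⟩ ?_
  · rintro x ⟨q, rfl, -⟩
    exact q.2.1
  · rintro x ⟨q, rfl, hq⟩
    refine ⟨q, rfl, hq.trans ?_⟩
    refine measureReal_mono ?_
    intro c hc
    exact open_of_all (all_of_open hc) 2 (by norm_num) hn

theorem pc_upper : ∃ N : ℕ, 3 ≤ N ∧ ∀ n : ℕ, N ≤ n → pc n 4 3 4 ≤ 3 * pc n 4 3 2 := by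
  obtain ⟨N, hN3, hN⟩ := compare
  refine ⟨N, hN3, fun n hn => ?_⟩
  have hn1 : 1 ≤ n := by omega
  refine le_of_forall_pos_le_add fun ε hε => ?_
  by_cases h1 : pc n 4 3 2 + ε / 3 ≤ 1
  · have h0 := pc_nonneg n 4 3 2
    set p : unitInterval := ⟨pc n 4 3 2 + ε / 3, by positivity, h1⟩ with hp
    have h2 : 1 / 2 ≤ prob n 4 3 2 p := half_le hn1 (by norm_num)
      (by show pc n 4 3 2 < pc n 4 3 2 + ε / 3; linarith)
    have h3 := pc_le (hN n hn p h2)
    refine h3.trans ?_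
    rw [orp_coe, orp_coe]
    have hp0 : (0 : ℝ) ≤ p := p.2.1
    have hp1 : (p : ℝ) ≤ 1 := p.2.2
    have hpv : (p : ℝ) = pc n 4 3 2 + ε / 3 := rfl
    have h4 : 1 - (1 - (1 - (1 - (p : ℝ)) * (1 - p))) * (1 - p) ≤ 3 * p := by
      have h5 : 1 - (1 - (1 - (1 - (p : ℝ)) * (1 - p))) * (1 - p) =
          3 * p - (p : ℝ) ^ 2 * (3 - p) := by ring
      have h6 : 0 ≤ (p : ℝ) ^ 2 * (3 - p) := mul_nonneg (sq_nonneg _) (by linarith)
      rw [h5]; linarith
    linarith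
  · have h2 := pc_le_one (n := n) (d := 4) (θ := 3) (i := 4) hn1 le_rfl
    push Not at h1
    linarith [pc_nonneg n 4 3 2]

/-- **The gap closes for `d = 4`, `θ = 3`.** -/
theorem gap_tendsto : Tendsto (fun n : ℕ => Real.logb n (pc n 4 3 4) - Real.logb n (pc n 4 3 2))
    atTop (𝓝 0) := by
  obtain ⟨N, hN3, hN⟩ := pc_upper
  have hlog : Tendsto (fun n : ℕ => Real.log 3 / Real.log n) atTop (𝓝 0) := by
    refine Tendsto.const_div_atTop ?_ _
    exact Real.tendsto_log_atTop.comp tendsto_natCast_atTop_atTop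
  refine tendsto_of_tendsto_of_tendsto_of_le_of_le' tendsto_const_nhds hlog ?_ ?_
  · filter_upwards [eventually_ge_atTop N] with n hn
    have hn1 : (1 : ℝ) < n := by exact_mod_cast (by omega : 1 < n)
    have h1 := pc_pos (by omega : 3 ≤ n)
    have h2 := pc_mono (by omega : 1 ≤ n)
    have := Real.logb_le_logb_of_le hn1 h1 h2
    linarith
  · filter_upwards [eventually_ge_atTop N] with n hn
    have hn1 : (1 : ℝ) < n := by exact_mod_cast (by omega : 1 < n)
    have h1 := pc_pos (by omega : 3 ≤ n)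
    have h2 := pc_mono (by omega : 1 ≤ n)
    have h3 : 0 < pc n 4 3 4 := lt_of_lt_of_le h1 h2
    have h4 := Real.logb_le_logb_of_le hn1 h3 (hN n hn)
    rw [Real.logb_mul (by norm_num) h1.ne'] at h4
    have h5 : Real.logb n 3 = Real.log 3 / Real.log n := rfl
    linarith

/-! ### the threshold is the solution of `P = 1/2` -/

theorem bern_sum {V : Type*} [Fintype V] [DecidableEq V] (p : unitInterval) (S : Set (V → Bool))
    [DecidablePred (· ∈ S)] :
    (bern V p).real S = ∑ c ∈ Finset.univ.filter (· ∈ S),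
      ∏ v, (if c v = true then (p : ℝ) else 1 - p) := by
  have e : S = ↑(Finset.univ.filter (· ∈ S)) := by ext c; simp
  conv_lhs => rw [e]
  have h1 : (bern V p).real (↑(Finset.univ.filter (· ∈ S)) : Set (V → Bool)) =
      ∑ c ∈ Finset.univ.filter (· ∈ S), (bern V p).real {c} := by
    rw [← sum_measureReal_singleton]
  rw [h1]
  refine Finset.sum_congr rfl fun c _ => ?_
  have h2 := Measure.infinitePi_singleton_of_fintype
    (μ := fun _ : V => bernoulliMeasure true false p) (f := c)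
  unfold Measure.real bern
  rw [h2, ENNReal.toReal_prod]
  refine Finset.prod_congr rfl fun v _ => ?_
  cases c v
  · rw [b_false, ENNReal.toReal_ofReal (by linarith [p.2.2])]; simp
  · rw [b_true, ENNReal.toReal_ofReal p.2.1]; simp

theorem prob_cont (n d θ i : ℕ) : Continuous (prob n d θ i) := by
  classical
  have e : prob n d θ i = fun p : unitInterval =>
      ∑ c ∈ Finset.univ.filter (· ∈ {c : Vert n d → Bool | HasOpen θ i {v | c v = true}}),
        ∏ v, (if c v = true then (p : ℝ) else 1 - p) := by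
    funext p
    exact bern_sum p _
  rw [e]
  refine continuous_finset_sum _ fun c _ => continuous_finset_prod _ fun v _ => ?_
  split_ifs
  · exact continuous_subtype_val
  · exact continuous_const.sub continuous_subtype_val

theorem prob_zero {n d i : ℕ} (θ : ℕ) (hθ : 1 ≤ θ) (hn : 1 ≤ n) : prob n d θ i 0 = 0 := by
  have h1 : {c : Vert n d → Bool | HasOpen θ i {v | c v = true}} ⊆
      {c | ∀ v ∈ (Finset.univ : Finset (Vert n d)), c v = false}ᶜ := by
    rintro c ⟨J, b, hJ, hf⟩ hc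
    have h2 : {v | c v = true} = (∅ : Set (Vert n d)) := by
      ext v
      have := hc v (Finset.mem_univ v)
      simp [this]
    rw [h2, final_eq] at hf
    · exact hf (fun j _ => rfl : b ∈ face J b)
    · intro v S hS hall
      obtain ⟨w, hw⟩ := Finset.card_pos.1 (by omega : 0 < S.card)
      exact (hall w hw).2
  have h2 : (bern (Vert n d) 0).real
      {c | ∀ v ∈ (Finset.univ : Finset (Vert n d)), c v = false}ᶜ = 0 := by
    rw [probReal_compl_eq_one_sub (measSet _)]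
    unfold Measure.real
    rw [bern_empty]
    simp
  refine le_antisymm ?_ measureReal_nonneg
  rw [← h2]
  exact measureReal_mono h1

theorem pc_mem {n d θ i : ℕ} (hn : 1 ≤ n) (hi : i ≤ d) : pc n d θ i ∈ Set.Icc (0 : ℝ) 1 :=
  ⟨pc_nonneg n d θ i, pc_le_one hn hi⟩

theorem pc_spec {n d θ i : ℕ} (hn : 1 ≤ n) (hi : i ≤ d) (hθ : 1 ≤ θ) :
    prob n d θ i ⟨pc n d θ i, pc_mem hn hi⟩ = 1 / 2 := by
  set F : ℝ → ℝ := fun x => prob n d θ i (Set.projIcc 0 1 zero_le_one x) with hF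
  have hFc : Continuous F := (prob_cont n d θ i).comp continuous_projIcc
  set x := pc n d θ i with hx
  have hxm : x ∈ Set.Icc (0 : ℝ) 1 := pc_mem hn hi
  have hFx : F x = prob n d θ i ⟨x, hxm⟩ := by
    simp only [hF]; rw [Set.projIcc_of_mem zero_le_one hxm]
  rw [← hFx]
  refine le_antisymm ?_ ?_
  · by_contra hlt
    push Not at hlt
    have hx0 : 0 < x := by
      rcases hxm.1.eq_or_lt with h | h
      · exfalso
        have h1 : F x = 0 := by
          rw [hFx]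
          have : (⟨x, hxm⟩ : unitInterval) = 0 := Subtype.ext h.symm
          rw [this, prob_zero θ hθ hn]
        rw [h1] at hlt
        norm_num at hlt
      · exact h
    have h1 : ∀ᶠ y in 𝓝 x, 1 / 2 < F y := hFc.continuousAt.eventually_const_lt hlt
    have h2 : ∀ᶠ y in 𝓝[<] x, 1 / 2 < F y := h1.filter_mono nhdsWithin_le_nhds
    have h3 : Set.Ioo (0 : ℝ) x ∈ 𝓝[<] x := Ioo_mem_nhdsLT hx0
    obtain ⟨y, hy1, hy2⟩ := (h2.and h3).exists
    have hym : y ∈ Set.Icc (0 : ℝ) 1 := ⟨hy2.1.le, hy2.2.le.trans hxm.2⟩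
    have h4 : 1 / 2 ≤ prob n d θ i ⟨y, hym⟩ := by
      have : F y = prob n d θ i ⟨y, hym⟩ := by
        simp only [hF]; rw [Set.projIcc_of_mem zero_le_one hym]
      rw [← this]; exact hy1.le
    have h5 := pc_le h4
    have h6 : x ≤ y := h5
    linarith [hy2.2]
  · by_contra hlt
    push Not at hlt
    rcases hxm.2.eq_or_lt with h | h
    · have h1 : F x = 1 := by
        rw [hFx]
        have : (⟨x, hxm⟩ : unitInterval) = 1 := Subtype.ext h
        rw [this, prob_one θ hn hi]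
      rw [h1] at hlt
      norm_num at hlt
    · have h1 : ∀ᶠ y in 𝓝 x, F y < 1 / 2 := hFc.continuousAt.eventually_lt_const hlt
      have h2 : ∀ᶠ y in 𝓝[>] x, F y < 1 / 2 := h1.filter_mono nhdsWithin_le_nhds
      have h3 : Set.Ioo x 1 ∈ 𝓝[>] x := Ioo_mem_nhdsGT h
      obtain ⟨y, hy1, hy2⟩ := (h2.and h3).exists
      have hym : y ∈ Set.Icc (0 : ℝ) 1 := ⟨hxm.1.trans hy2.1.le, hy2.2.le⟩
      have h4 : 1 / 2 ≤ prob n d θ i ⟨y, hym⟩ := half_le hn hi hy2.1
      have : F y = prob n d θ i ⟨y, hym⟩ := by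
        simp only [hF]; rw [Set.projIcc_of_mem zero_le_one hym]
      rw [this] at hy1
      linarith

end Pool.Agent.X136.HT
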