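import Pool.Agent.X136.HT.Det
import Pool.Agent.X136.GT.Meas

set_option autoImplicit false

/-!
# Probability estimates
-/

namespace Pool.Agent.X136.HT

open MeasureTheory ProbabilityTheory

instance {V : Type*} (p : unitInterval) : IsProbabilityMeasure (bern V p) := by
  unfold bern; infer_instance

theorem measSet {V : Type*} [Finite V] (S : Set (V → Bool)) : MeasurableSet S :=
  (Set.toFinite S).measurableSet

theorem b_true (p : unitInterval) : bernoulliMeasure true false p {true} =
    ENNReal.ofReal p := by
  rw [bernoulliMeasure_def]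
  simp only [Measure.add_apply, Measure.smul_apply, MeasurableSet.singleton,
    Measure.dirac_apply', Set.indicator_apply, Set.mem_singleton_iff, Pi.one_apply,
    ENNReal.smul_def, smul_eq_mul]
  simp only [if_true, Bool.false_eq_true, if_false, mul_zero, add_zero, mul_one]
  exact (ENNReal.ofReal_eq_coe_nnreal p.2.1).symm

theorem b_false (p : unitInterval) : bernoulliMeasure true false p {false} =
    ENNReal.ofReal (1 - p) := by
  have e : ({false} : Set Bool) = {true}ᶜ := by ext b; cases b <;> simp
  rw [e, prob_compl_eq_one_sub (measurableSet_singleton _), b_true,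
    ENNReal.ofReal_sub _ p.2.1, ENNReal.ofReal_one]

/-- the parameter of the union of two independent configurations -/
noncomputable def orp (p q : unitInterval) : unitInterval :=
  unitInterval.symm (unitInterval.symm p * unitInterval.symm q)

theorem orp_coe (p q : unitInterval) : ((orp p q : unitInterval) : ℝ) = 1 - (1 - p) * (1 - q) := by
  unfold orp
  rfl

theorem b_or (p q : unitInterval) :
    ((bernoulliMeasure true false p).prod (bernoulliMeasure true false q)).map
      (fun x : Bool × Bool => x.1 || x.2) = bernoulliMeasure true false (orp p q) := by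
  have hm : Measurable fun x : Bool × Bool => x.1 || x.2 := Measurable.of_discrete
  have hf : (((bernoulliMeasure true false p).prod (bernoulliMeasure true false q)).map
      (fun x : Bool × Bool => x.1 || x.2)) {false} =
      bernoulliMeasure true false (orp p q) {false} := by
    rw [Measure.map_apply hm (measurableSet_singleton _), b_false, orp_coe]
    have e : (fun x : Bool × Bool => x.1 || x.2) ⁻¹' {false} = {false} ×ˢ {false} := by
      ext ⟨a, b⟩; simp
    rw [e, Measure.prod_prod, b_false, b_false, ← ENNReal.ofReal_mul (by linarith [p.2.2])]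
    congr 1
    ring
  have : IsProbabilityMeasure (((bernoulliMeasure true false p).prod
      (bernoulliMeasure true false q)).map (fun x : Bool × Bool => x.1 || x.2)) :=
    Measure.isProbabilityMeasure_map hm.aemeasurable
  refine Measure.ext_of_singleton fun b => ?_
  cases b
  · exact hf
  · have e : ({true} : Set Bool) = {false}ᶜ := by ext b; cases b <;> simp
    rw [e, prob_compl_eq_one_sub (measurableSet_singleton _),
      prob_compl_eq_one_sub (measurableSet_singleton _), hf]

/-- union of two independent configurations -/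
theorem bern_or {V : Type*} (p q : unitInterval) :
    ((bern V p).prod (bern V q)).map (fun z v => z.1 v || z.2 v) = bern V (orp p q) := by
  have h1 := GT.map_zip (ι := V) (bernoulliMeasure true false p) (bernoulliMeasure true false q)
  have hm : Measurable fun x : Bool × Bool => x.1 || x.2 := Measurable.of_discrete
  have h2 := Measure.infinitePi_map_pi
    (μ := fun _ : V => (bernoulliMeasure true false p).prod (bernoulliMeasure true false q))
    (f := fun _ x => x.1 || x.2) (fun _ => hm)
  unfold bern
  rw [← b_or p q, ← h2, ← h1, Measure.map_map]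
  · rfl
  · exact measurable_pi_lambda _ fun v => hm.comp (measurable_pi_apply v)
  · exact GT.measurable_zip

theorem bern_or_apply {V : Type*} [Finite V] (p q : unitInterval) (S : Set (V → Bool)) :
    bern V (orp p q) S = ((bern V p).prod (bern V q)) {z | (fun v => z.1 v || z.2 v) ∈ S} := by
  rw [← bern_or, Measure.map_apply _ (measSet S)]
  · rfl
  · refine measurable_pi_lambda _ fun v => ?_
    have hm : Measurable fun x : Bool × Bool => x.1 || x.2 := Measurable.of_discrete
    have h1 : Measurable fun z : (V → Bool) × (V → Bool) => z.1 v :=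
      (measurable_pi_apply v).comp measurable_fst
    have h2 : Measurable fun z : (V → Bool) × (V → Bool) => z.2 v :=
      (measurable_pi_apply v).comp measurable_snd
    exact hm.comp (h1.prodMk h2)

/-- an increasing event -/
def Inc {V : Type*} (S : Set (V → Bool)) : Prop :=
  ∀ c c' : V → Bool, (∀ v, c v = true → c' v = true) → c ∈ S → c' ∈ S

theorem le_or {V : Type*} [Finite V] (p q : unitInterval) {S : Set (V → Bool)} (hS : Inc S) :
    bern V p S ≤ bern V (orp p q) S := by
  rw [bern_or_apply]
  have h : (bern V p) S = ((bern V p).prod (bern V q)) (S ×ˢ Set.univ) := by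
    rw [Measure.prod_prod, measure_univ, mul_one]
  rw [h]
  refine measure_mono ?_
  rintro ⟨c, c'⟩ ⟨h1, -⟩
  exact hS c _ (fun v hv => by show (c v || c' v) = true; rw [hv]; rfl) h1

theorem exists_orp {p q : unitInterval} (h : p ≤ q) : ∃ r, orp p r = q := by
  have h' : (p : ℝ) ≤ q := h
  rcases eq_or_lt_of_le p.2.2 with h1 | h1
  · refine ⟨0, Subtype.ext ?_⟩
    rw [orp_coe]
    have : (q : ℝ) = 1 := le_antisymm q.2.2 (by linarith)
    rw [this, h1]; norm_num
  · have hp : (0 : ℝ) < 1 - p := by linarith
    refine ⟨⟨1 - (1 - q) / (1 - p), ?_, ?_⟩, Subtype.ext ?_⟩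
    · rw [sub_nonneg, div_le_one hp]; linarith
    · have : (0 : ℝ) ≤ (1 - q) / (1 - p) := div_nonneg (by linarith [q.2.2]) hp.le
      linarith
    · rw [orp_coe]
      show 1 - (1 - (p : ℝ)) * (1 - (1 - (1 - (q : ℝ)) / (1 - p))) = q
      field_simp
      ring

theorem bern_mono {V : Type*} [Finite V] {p q : unitInterval} (h : p ≤ q) {S : Set (V → Bool)}
    (hS : Inc S) : bern V p S ≤ bern V q S := by
  obtain ⟨r, rfl⟩ := exists_orp h
  exact le_or p r hS

/-- probability that a set of sites is empty -/
theorem bern_empty {V : Type*} (p : unitInterval) (R : Finset V) :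
    (bern V p) {c | ∀ v ∈ R, c v = false} = ENNReal.ofReal ((1 - p) ^ R.card) := by
  have e : {c : V → Bool | ∀ v ∈ R, c v = false} = (↑R : Set V).pi fun _ => {false} := by
    ext c; simp [Set.mem_pi]
  rw [e]
  unfold bern
  rw [Measure.infinitePi_pi _ (fun _ _ => measurableSet_singleton _)]
  rw [Finset.prod_const, b_false, ENNReal.ofReal_pow (by linarith [p.2.2])]

theorem bern_full {V : Type*} (p : unitInterval) (R : Finset V) :
    (bern V p) {c | ∀ v ∈ R, c v = true} = ENNReal.ofReal p ^ R.card := by
  have e : {c : V → Bool | ∀ v ∈ R, c v = true} = (↑R : Set V).pi fun _ => {true} := by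
    ext c; simp [Set.mem_pi]
  rw [e]
  unfold bern
  rw [Measure.infinitePi_pi _ (fun _ _ => measurableSet_singleton _)]
  rw [Finset.prod_const, b_true]

/-- two disjoint sets of sites are both hit -/
theorem bern_two {V : Type*} [Finite V] (p : unitInterval) {R1 R2 : Finset V} (hd : Disjoint R1 R2)
    {k : ℕ} (h1 : R1.card = k) (h2 : R2.card = k) :
    (bern V p).real {c | ¬ ((∃ v ∈ R1, c v = true) ∧ ∃ v ∈ R2, c v = true)} =
      1 - (1 - (1 - (p : ℝ)) ^ k) ^ 2 := by
  classical
  set N1 : Set (V → Bool) := {c | ∀ v ∈ R1, c v = false} with hN1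
  set N2 : Set (V → Bool) := {c | ∀ v ∈ R2, c v = false} with hN2
  have e : {c : V → Bool | ¬ ((∃ v ∈ R1, c v = true) ∧ ∃ v ∈ R2, c v = true)} = N1 ∪ N2 := by
    ext c
    simp only [Set.mem_ofPred_eq, Set.mem_union, hN1, hN2]
    rw [not_and_or]
    push Not
    simp
  have hp1 : (0 : ℝ) ≤ 1 - p := by linarith [p.2.2]
  have r1 : (bern V p).real N1 = (1 - (p : ℝ)) ^ k := by
    unfold Measure.real
    rw [hN1, bern_empty, h1, ENNReal.toReal_ofReal (by positivity)]
  have r2 : (bern V p).real N2 = (1 - (p : ℝ)) ^ k := by
    unfold Measure.real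
    rw [hN2, bern_empty, h2, ENNReal.toReal_ofReal (by positivity)]
  have r3 : (bern V p).real (N1 ∩ N2) = (1 - (p : ℝ)) ^ k * (1 - (p : ℝ)) ^ k := by
    have e2 : N1 ∩ N2 = {c : V → Bool | ∀ v ∈ R1 ∪ R2, c v = false} := by
      ext c
      simp only [hN1, hN2, Set.mem_inter_iff, Set.mem_ofPred_eq, Finset.mem_union]
      constructor
      · rintro ⟨a, b⟩ v (hv | hv)
        · exact a v hv
        · exact b v hv
      · exact fun h => ⟨fun v hv => h v (Or.inl hv), fun v hv => h v (Or.inr hv)⟩
    unfold Measure.real
    rw [e2, bern_empty, Finset.card_union_of_disjoint hd, h1, h2,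
      ENNReal.toReal_ofReal (by positivity), pow_add]
  have h3 := measureReal_union_add_inter (μ := bern V p) (s := N1) (measSet N2)
  rw [r1, r2, r3] at h3
  rw [e]
  linarith

/-- independent cells -/
theorem bern_cells {V K C : Type*} [Finite V] [Fintype K] [Finite C] (p : unitInterval)
    {h : K × C → V} (hh : Function.Injective h) (S : Set (C → Bool)) :
    (bern V p) {ω | ∀ k, (fun x => ω (h (k, x))) ∈ S} = (bern C p S) ^ Fintype.card K := by
  have h1 := Measure.map_infinitePi_infinitePi_of_inj
    (P := fun _ : V => bernoulliMeasure true false p) hh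
  have h2 : (Measure.infinitePi fun _ : K × C => bernoulliMeasure true false p).map
      (fun Y k c => Y (k, c)) = Measure.infinitePi fun _ : K => bern C p :=
    Measure.infinitePi_map_curry (fun (_ : K) (_ : C) => bernoulliMeasure true false p)
  have hm1 : Measurable fun (ω : V → Bool) (i : K × C) => ω (h i) :=
    measurable_pi_lambda _ fun i => measurable_pi_apply _
  have hm2 : Measurable fun (Y : K × C → Bool) (k : K) (c : C) => Y (k, c) :=
    measurable_pi_lambda _ fun k => measurable_pi_lambda _ fun c => measurable_pi_apply _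
  have h3 : (bern V p).map (fun (ω : V → Bool) (k : K) (c : C) => ω (h (k, c))) =
      Measure.infinitePi fun _ : K => bern C p := by
    rw [← h2, ← h1, Measure.map_map hm2 hm1]
    rfl
  have hS : MeasurableSet (Set.univ.pi fun _ : K => S) := MeasurableSet.univ_pi fun _ => measSet S
  have hm3 : Measurable fun (ω : V → Bool) (k : K) (c : C) => ω (h (k, c)) := hm2.comp hm1
  have h4 : (bern V p) {ω | ∀ k, (fun x => ω (h (k, x))) ∈ S} =
      (Measure.infinitePi fun _ : K => bern C p) (Set.univ.pi fun _ : K => S) := by
    rw [← h3, Measure.map_apply hm3 hS]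
    congr 1
    ext ω
    simp [Set.mem_pi]
  rw [h4]
  have h5 := Measure.infinitePi_pi (fun _ : K => bern C p) (s := Finset.univ)
    (t := fun _ => S) (fun _ _ => measSet S)
  rw [Finset.coe_univ] at h5
  rw [h5, Finset.prod_const, Finset.card_univ]

end Pool.Agent.X136.HT
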