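import Pool.Agent.X136.HT.Prob

set_option autoImplicit false

/-!
# Sprinkling
-/

namespace Pool.Agent.X136.HT

open MeasureTheory ProbabilityTheory

/-- the error -/
noncomputable def err (n : ℕ) (p : ℝ) : ℝ := (1 - (1 - (1 - p) ^ ((n / 2) * (n / 2))) ^ 2) ^ (n / 3)

section

variable {n : ℕ} {j1 j2 c e : Fin 4} (hF : Four j1 j2 c e)

include hF

theorem fail_le (p : unitInterval) (s : Fin n) {β : ℕ} (hβ : β < 3) :
    (bern (Vert n 4) p).real
      {ω | ¬ ∃ t : Fin n, t.val % 3 = β ∧ Good j1 j2 c {v | ω v = true} t s} ≤ err n p := by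
  classical
  set m := n / 2 with hm
  set K := n / 3 with hK
  have hlt : ∀ k : Fin K, 3 * k.val + β < n := by
    intro k
    have := k.2
    omega
  let h : Fin K × (Fin n × Fin n) → Vert n 4 := fun x =>
    gv j1 j2 c x.2.1 x.2.2 ⟨3 * x.1.val + β, hlt x.1⟩ s
  have hinj : Function.Injective h := by
    rintro ⟨k, a, b⟩ ⟨k', a', b'⟩ he
    obtain ⟨h1, h2, h3, -⟩ := gv_inj hF he
    have h1' : a = a' := h1
    have h2' : b = b' := h2
    have h3' : k = k' := by
      have := Fin.mk.inj h3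
      exact Fin.ext (by simpa using this)
    subst h1' h2' h3'
    rfl
  let f1 : Fin m × Fin m → Fin n × Fin n := fun x =>
    (⟨x.1.val, by have := x.1.2; omega⟩, ⟨x.2.val, by have := x.2.2; omega⟩)
  let f2 : Fin m × Fin m → Fin n × Fin n := fun x =>
    (⟨m + x.1.val, by have := x.1.2; omega⟩, ⟨m + x.2.val, by have := x.2.2; omega⟩)
  have hf1 : Function.Injective f1 := by
    rintro ⟨a, b⟩ ⟨a', b'⟩ he
    have h1 := congrArg (fun x => (x.1.val, x.2.val)) he
    simp only [f1, Prod.mk.injEq] at h1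
    exact Prod.ext (Fin.ext h1.1) (Fin.ext h1.2)
  have hf2 : Function.Injective f2 := by
    rintro ⟨a, b⟩ ⟨a', b'⟩ he
    have h1 := congrArg (fun x => (x.1.val, x.2.val)) he
    simp only [f2, Prod.mk.injEq] at h1
    exact Prod.ext (Fin.ext (by simpa using h1.1)) (Fin.ext (by simpa using h1.2))
  set R1 := (Finset.univ : Finset (Fin m × Fin m)).image f1 with hR1
  set R2 := (Finset.univ : Finset (Fin m × Fin m)).image f2 with hR2
  have c1 : R1.card = m * m := by
    rw [hR1, Finset.card_image_of_injective _ hf1, Finset.card_univ, Fintype.card_prod,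
      Fintype.card_fin]
  have c2 : R2.card = m * m := by
    rw [hR2, Finset.card_image_of_injective _ hf2, Finset.card_univ, Fintype.card_prod,
      Fintype.card_fin]
  have hdis : Disjoint R1 R2 := by
    rw [Finset.disjoint_left]
    intro x h1 h2
    obtain ⟨y, -, rfl⟩ := Finset.mem_image.1 h1
    obtain ⟨z, -, hz⟩ := Finset.mem_image.1 h2
    have h3 := congrArg (fun x => x.1.val) hz
    simp only [f1, f2] at h3
    have := y.1.2
    omega
  set S : Set (Fin n × Fin n → Bool) :=
    {y | ¬ ((∃ v ∈ R1, y v = true) ∧ ∃ v ∈ R2, y v = true)} with hS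
  have h1 := bern_cells p hinj S
  have h2 := bern_two p hdis c1 c2
  have hsub : {ω : Vert n 4 → Bool | ¬ ∃ t : Fin n, t.val % 3 = β ∧
      Good j1 j2 c {v | ω v = true} t s} ⊆ {ω | ∀ k, (fun x => ω (h (k, x))) ∈ S} := by
    intro ω hω k
    simp only [hS, Set.mem_ofPred_eq]
    rintro ⟨⟨v, hv, hv1⟩, w, hw, hw1⟩
    apply hω
    obtain ⟨y, -, rfl⟩ := Finset.mem_image.1 hv
    obtain ⟨z, -, rfl⟩ := Finset.mem_image.1 hw
    refine ⟨⟨3 * k.val + β, hlt k⟩, by show (3 * k.val + β) % 3 = β; omega,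
      (f1 y).1, (f2 z).1, (f1 y).2, (f2 z).2, ?_, ?_, hv1, hw1⟩
    · intro he
      have := congrArg Fin.val he
      simp only [f1, f2] at this
      have := y.1.2
      omega
    · intro he
      have := congrArg Fin.val he
      simp only [f1, f2] at this
      have := y.2.2
      omega
  calc (bern (Vert n 4) p).real _ ≤ (bern (Vert n 4) p).real {ω | ∀ k, (fun x => ω (h (k, x))) ∈ S} :=
        measureReal_mono hsub
    _ = ((bern (Fin n × Fin n) p).real S) ^ K := by
        unfold Measure.real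
        rw [h1, ENNReal.toReal_pow, Fintype.card_fin]
    _ = err n p := by
        rw [h2]
        rfl

end

/-- two coordinates and their complement -/
theorem exists_four {J : Finset (Fin 4)} (hJ : J.card = 2) :
    ∃ j1 j2 c e, Four j1 j2 c e ∧ J = {j1, j2} := by
  obtain ⟨j1, j2, hne, rfl⟩ := Finset.card_eq_two.1 hJ
  have h : ∀ j1 j2 : Fin 4, j1 ≠ j2 → ∃ c e : Fin 4, j1 ≠ c ∧ j1 ≠ e ∧ j2 ≠ c ∧ j2 ≠ e ∧ c ≠ e := by
    decide
  obtain ⟨c, e, h1, h2, h3, h4, h5⟩ := h j1 j2 hne
  exact ⟨j1, j2, c, e, ⟨hne, h1, h2, h3, h4, h5⟩, rfl⟩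

theorem exists_three {n : ℕ} (hn : 3 ≤ n) (s0 : Fin n) : ∃ s1 s2 : Fin n, s0 ≠ s1 ∧ s0 ≠ s2 ∧
    s1 ≠ s2 := by
  have h : 1 < (Finset.univ.erase s0 : Finset (Fin n)).card := by
    rw [Finset.card_erase_of_mem (Finset.mem_univ _), Finset.card_univ, Fintype.card_fin]
    omega
  obtain ⟨s1, h1, s2, h2, h3⟩ := Finset.one_lt_card.1 h
  exact ⟨s1, s2, (Finset.ne_of_mem_erase h1).symm, (Finset.ne_of_mem_erase h2).symm, h3⟩

/-- all open -/
def AllOpen {n : ℕ} (A : Set (Vert n 4)) : Prop := ∀ v, v ∈ final 3 A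

theorem sprinkle {n : ℕ} (hn : 3 ≤ n) (p : unitInterval) {ω1 : Vert n 4 → Bool}
    (h1 : HasOpen 3 2 {v | ω1 v = true}) :
    1 - 9 * err n p ≤ (bern (Vert n 4) p).real
      {ω | AllOpen {v | (ω1 v || ω v) = true}} := by
  classical
  obtain ⟨J, b, hJ, hface⟩ := h1
  obtain ⟨j1, j2, c, e, hF, rfl⟩ := exists_four hJ
  obtain ⟨s1, s2, h01, h02, h12⟩ := exists_three hn (b e)
  set Fail : Fin n → ℕ → Set (Vert n 4 → Bool) := fun s β =>
    {ω | ¬ ∃ t : Fin n, t.val % 3 = β ∧ Good j1 j2 c {v | ω v = true} t s} with hFail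
  have hprob : ∀ s β, β < 3 → (bern (Vert n 4) p).real (Fail s β) ≤ err n p :=
    fun s β hβ => fail_le hF p s hβ
  set U : Set (Vert n 4 → Bool) := ⋃ x ∈ (({b e, s1, s2} : Finset (Fin n)) ×ˢ Finset.range 3),
    Fail x.1 x.2 with hU
  have hUp : (bern (Vert n 4) p).real U ≤ 9 * err n p := by
    refine (measureReal_biUnion_finset_le _ _).trans ?_
    have hcard : (({b e, s1, s2} : Finset (Fin n)) ×ˢ Finset.range 3).card ≤ 9 := by
      rw [Finset.card_product, Finset.card_range]
      have := Finset.card_le_three (a := b e) (b := s1) (c := s2)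
      omega
    have herr : 0 ≤ err n p := (measureReal_nonneg).trans (hprob s1 0 (by norm_num))
    calc ∑ x ∈ (({b e, s1, s2} : Finset (Fin n)) ×ˢ Finset.range 3),
          (bern (Vert n 4) p).real (Fail x.1 x.2)
        ≤ ∑ _x ∈ (({b e, s1, s2} : Finset (Fin n)) ×ˢ Finset.range 3), err n p := by
          refine Finset.sum_le_sum fun x hx => ?_
          exact hprob _ _ (Finset.mem_range.1 (Finset.mem_product.1 hx).2)
      _ = (({b e, s1, s2} : Finset (Fin n)) ×ˢ Finset.range 3).card * err n p := by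
          rw [Finset.sum_const, nsmul_eq_mul]
      _ ≤ 9 * err n p := by
          gcongr
          exact_mod_cast hcard
  have hsub : Uᶜ ⊆ {ω | AllOpen {v | (ω1 v || ω v) = true}} := by
    intro ω hω
    set A : Set (Vert n 4) := {v | (ω1 v || ω v) = true} with hA
    have hωA : {v | ω v = true} ⊆ A := by
      intro v hv
      have hv' : ω v = true := hv
      show (ω1 v || ω v) = true
      rw [hv', Bool.or_true]
    have hω1A : {v | ω1 v = true} ⊆ A := by
      intro v hv
      have hv' : ω1 v = true := hv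
      show (ω1 v || ω v) = true
      rw [hv', Bool.true_or]
    have hgood : ∀ s ∈ ({b e, s1, s2} : Set (Fin n)), ∀ β, β < 3 → ∃ t : Fin n, t.val % 3 = β ∧
        Good j1 j2 c A t s := by
      intro s hs β hβ
      by_contra hcon
      apply hω
      refine Set.mem_biUnion (x := (s, β)) ?_ ?_
      · simp only [Finset.coe_product, Finset.coe_insert, Finset.coe_singleton, Finset.coe_range]
        exact ⟨hs, hβ⟩
      · rintro ⟨t, ht, x, x', y, y', hx, hy, g1, g2⟩
        exact hcon ⟨t, ht, x, x', y, y', hx, hy, hωA g1, hωA g2⟩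
    refine spread hF h01 h02 h12 (t0 := b c) ?_ ?_
    · intro x y
      refine final_mono 3 hω1A (hface ?_)
      intro j hj
      rcases hF.cover j with rfl | rfl | rfl | rfl
      · exact absurd (by simp) hj
      · exact absurd (by simp) hj
      · rw [gv_c hF]
      · rw [gv_e hF]
    · intro s hs
      obtain ⟨t0, h0, g0⟩ := hgood s hs 0 (by norm_num)
      obtain ⟨t1, h1, g1⟩ := hgood s hs 1 (by norm_num)
      obtain ⟨t2, h2, g2⟩ := hgood s hs 2 (by norm_num)
      refine ⟨t0, t1, t2, ?_, ?_, ?_, g0, g1, g2⟩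
      · rintro rfl; omega
      · rintro rfl; omega
      · rintro rfl; omega
  have h3 : (bern (Vert n 4) p).real Uᶜ = 1 - (bern (Vert n 4) p).real U :=
    probReal_compl_eq_one_sub (measSet U)
  calc 1 - 9 * err n p ≤ (bern (Vert n 4) p).real Uᶜ := by rw [h3]; linarith
    _ ≤ _ := measureReal_mono hsub

end Pool.Agent.X136.HT
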