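import Mathlib

/-!
MP_a9eb04_an: the sharp constant `K_p = p^p/(p-1)^(p-1)` in `[μ] ≤ K [[μ]]_c` on trees.
Two real-analysis parts.

**EDGE** (with γ = p/(p-1)).  `N(t) = t^γ - a^γ`.  For `t ≤ a` the integrand is 0, for `a < t < b` it is
`p N(t)^p t^(-1-γ)`, for `t ≥ b` it is `p N(b)^p t^(-1-γ)` (because `γ p - p = γ`), so the tail integral is
`(p-1) N(b)^p b^(-γ)` (`integral_Ioi_rpow_of_lt`).  For the middle part let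
`Ψ(t) = C (t-a)^p - (p-1) N(t)^p t^(-γ)`, `C = p^p/(p-1)^(p-1) = p γ^(p-1)`; then
`Ψ' = p C (t-a)^(p-1) - p² N^(p-1)/t + p N^p t^(-1-γ) ≥ p N^p t^(-1-γ)`, because
`N(t) ≤ γ (t-a) t^(γ-1)` (Bernoulli: `(a/t)^γ ≥ 1 - γ (1-a/t)`) and `(γ-1)(p-1) = 1`.  Hence
(for `0 < a`, `intervalIntegral.integral_le_sub_of_hasDeriv_right_of_le`) the middle is `≤ Ψ(b) - Ψ(a)`, `Ψ(a) = 0`.
For `a = 0` directly: the total is `b^p + (p-1) b^p = p b^p ≤ C b^p`.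

**ASY**: `k^(1-p) - (k+1)^(1-p) ≥ (p-1) (k+1)^(-p)`; `∑_{j ≤ k} j^(-1/p) ≥ (p/(p-1)) ((k+1)^((p-1)/p) - 1)`, so with
Bernoulli each term is `≥ C (k+1)^(-1) (1 - p (k+1)^(-(p-1)/p))`; `∑ (k+1)^(-1-(p-1)/p)` converges, the harmonic sum
diverges.
-/

open MeasureTheory Set

namespace Pool.Agent.X136.HT

/-- per-edge inequality -/
def S_EDGE : Prop := ∀ p : ℝ, 1 < p → ∀ a b : ℝ, 0 ≤ a → a ≤ b →
  ∫⁻ t in Ioi (0 : ℝ), ENNReal.ofReal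
      (p * ((min (b / t) 1) ^ (p / (p - 1)) - (min (a / t) 1) ^ (p / (p - 1))) ^ p * t ^ (p - 1))
    ≤ ENNReal.ofReal (p ^ p / (p - 1) ^ (p - 1) * (b - a) ^ p)

/-- asymptotic lower bound -/
def S_ASY : Prop := ∀ p : ℝ, 1 < p → ∀ K : ℝ, 0 ≤ K →
  (∀ N : ℕ, ∑ k ∈ Finset.Icc 1 N, ((k : ℝ) ^ (1 - p) - ((k : ℝ) + 1) ^ (1 - p)) *
      (∑ j ∈ Finset.Icc 1 k, (j : ℝ) ^ (-1 / p)) ^ p ≤ K * ∑ j ∈ Finset.Icc 1 N, (1 : ℝ) / j) →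
  p ^ p / (p - 1) ^ (p - 1) ≤ K

end Pool.Agent.X136.HT
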